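import Pool.Agent.QUD.StmtsRB

/-!
Row BRI of the squad QUD: area, perimeter and the sum of the reciprocal angles.
-/

set_option autoImplicit false

namespace Pool.Agent.QUD.H39

open MeasureTheory Complex Filter Topology Pool.Agent.H16Iso Pool.Agent.H62T
open Pool.Agent.AEU Pool.Agent.XQ
open Pool.Agent.H1Gen (det CCW poly)
open Pool.Agent.QUD

lemma ar2_eq (a b c d : HP) : ar2 a b c d = 2 * ar (vv a b c d) := by
  have h : ar (vv a b c d) =
      (det (vx a b - vx d a) (vx b c - vx d a) + det (vx b c - vx d a) (vx c d - vx d a)) / 2 := rfl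
  rw [h]
  unfold ar2 det dt
  ring

lemma pr4_eq (a b c d : HP) : pr4 a b c d = pm (vv a b c d) := by
  have h : pm (vv a b c d) =
      ‖vx a b - vx d a‖ + ‖vx b c - vx a b‖ + ‖vx c d - vx b c‖ + ‖vx d a - vx c d‖ := rfl
  rw [h]
  unfold pr4
  rw [norm_sub_rev (vx d a) (vx a b), norm_sub_rev (vx a b) (vx b c),
    norm_sub_rev (vx b c) (vx c d), norm_sub_rev (vx c d) (vx d a)]

lemma fk_eq {t x : ℝ} (hx0 : 0 < x) (hx1 : x < Real.pi) (h : Real.cos x = -t) :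
    fk t = Real.pi ^ 2 / 6 * (1 / x) - x / 6 := by
  unfold fk
  rw [← h, Real.arccos_cos hx0.le hx1.le]
  field_simp

lemma kc4_eq (hvtx : VtxStmt) (hang : AngStmt) (hasm : AsmStmt) {a b c d : HP}
    (h : Cyc a b c d) :
    kc4 a b c d = Real.pi ^ 2 / 6 * (1 / an (vv a b c d) 0 + 1 / an (vv a b c d) 1 +
      1 / an (vv a b c d) 2 + 1 / an (vv a b c d) 3) - Real.pi / 3 := by
  obtain ⟨hccw, -, -, -, -, -, h0, h1, h2, h3⟩ := hvtx a b c d h
  have a0 := hang _ hccw 0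
  have a1 := hang _ hccw 1
  have a2 := hang _ hccw 2
  have a3 := hang _ hccw 3
  have hs := (hasm _ hccw).1
  unfold kc4
  rw [fk_eq a1.1 a1.2.1 h1, fk_eq a2.1 a2.2.1 h2, fk_eq a3.1 a3.2.1 h3, fk_eq a0.1 a0.2.1 h0]
  linear_combination -hs / 6

theorem bri (hinc : IncStmt) (hvtx : VtxStmt) (hang : AngStmt) (hasm : AsmStmt) : BriStmt := by
  intro a b c d a' b' c' d' h h' hd
  obtain ⟨h1, h2, h3, -⟩ := hinc a b c d a' b' c' d' h h' hd
  rw [ar2_eq, ar2_eq] at h1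
  rw [pr4_eq, pr4_eq] at h2
  rw [kc4_eq hvtx hang hasm h, kc4_eq hvtx hang hasm h'] at h3
  refine ⟨by linarith, h2, ?_⟩
  have hpi : (0 : ℝ) < Real.pi ^ 2 / 6 := by positivity
  have h4 : Real.pi ^ 2 / 6 * (1 / an (vv a b c d) 0 + 1 / an (vv a b c d) 1 +
      1 / an (vv a b c d) 2 + 1 / an (vv a b c d) 3) =
      Real.pi ^ 2 / 6 * (1 / an (vv a' b' c' d') 0 + 1 / an (vv a' b' c' d') 1 +
        1 / an (vv a' b' c' d') 2 + 1 / an (vv a' b' c' d') 3) := by linarith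
  exact mul_left_cancel₀ hpi.ne' h4

end Pool.Agent.QUD.H39
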