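import Pool.Agent.QUD.StmtsXU
import Pool.Agent.Helper35_QUD.SEU

/-!
# Squad QUD, row XLB (helper39): the weights and the constants of the two polygons agree
-/

set_option autoImplicit false

namespace Pool.Agent.QUD.H39

open MeasureTheory Filter Topology Real Set Pool.Agent.AEU Pool.Agent.AEU.H12 Pool.Agent.XQ
  Pool.Agent.XQ.U

theorem exp_sum {ι : Type} (s : Finset ℝ) (f : ℝ → ℝ) (g : ι → ℝ) (c : ℝ) (l : List ι)
    (h : ∀ q ∈ l, g q ∈ s) :
    (l.map fun q => c * f (g q)).sum
      = ∑ α ∈ s, (l.map fun q => if g q = α then c else 0).sum * f α := by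
  induction l with
  | nil => simp
  | cons p l ih =>
    have ih' := ih fun q hq => h q (List.mem_cons_of_mem _ hq)
    have hp := h p (by simp)
    have e : c * f (g p) = ∑ α ∈ s, (if g p = α then c else 0) * f α := by
      rw [Finset.sum_eq_single (g p)]
      · rw [if_pos rfl]
      · intro α _ hα
        rw [if_neg (Ne.symm hα), zero_mul]
      · intro hn
        exact absurd hp hn
    simp only [List.map_cons, List.sum_cons]
    rw [ih', e, ← Finset.sum_add_distrib]
    refine Finset.sum_congr rfl fun α _ => ?_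
    ring

theorem exp_zero {ι : Type} {α : ℝ} (g : ι → ℝ) (c : ℝ) (l : List ι) (h : ∀ q ∈ l, g q ≠ α) :
    (l.map fun q => if g q = α then c else 0).sum = 0 := by
  induction l with
  | nil => simp
  | cons p l ih =>
    have ih' := ih fun q hq => h q (List.mem_cons_of_mem _ hq)
    simp only [List.map_cons, List.sum_cons]
    rw [ih', if_neg (h p (by simp)), add_zero]

theorem fB_sum (B : List (ℝ × ℝ)) (v : ℝ) : (B.map fun q => fB q v).sum =
    (B.map fun q => Ceta (π / q.1) q.2).sum
      - (B.map fun q => 1 * (fun α => KKf (π / α) (2 * v)) q.1).sum := by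
  induction B with
  | nil => simp
  | cons p l ih =>
    simp only [List.map_cons, List.sum_cons]
    rw [ih]
    unfold Pool.Agent.XQ.U.fB
    simp only
    ring

theorem KKf_zero (b : ℝ) : KKf b 0 = Ceta b 0 := by
  unfold KKf Ceta
  rw [mul_zero, mul_zero, cosh_zero, cos_zero]

theorem fH_sum (H : List ℝ) (v : ℝ) : (H.map fun α => fH α v).sum =
    (H.map fun α => 1 / 2 * Ceta (π / α) 0).sum
      - (H.map fun β => 1 / 2 * (fun α => KKf (π / α) (2 * v)) β).sum := by
  induction H with
  | nil => simp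
  | cons p l ih =>
    simp only [List.map_cons, List.sum_cons]
    rw [ih]
    unfold fH
    rw [KKf_zero]
    simp only
    ring

/-- row XLB -/
theorem xlb (hlin : LinStmt) : XlbStmt := by
  classical
  intro l A B H hl hOk hEq
  obtain ⟨-, okB, okH⟩ := hOk
  set s : Finset ℝ :=
    ((l.filter (fun p => decide (¬ obt p))).map (fun p => max p.1 p.2)).toFinset ∪
      ((B.map Prod.fst).toFinset ∪ H.toFinset) with hs
  have m1 : ∀ p ∈ l, ¬ obt p → max p.1 p.2 ∈ s := by
    intro p hp ho
    rw [hs, Finset.mem_union]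
    left
    rw [List.mem_toFinset, List.mem_map]
    exact ⟨p, List.mem_filter.mpr ⟨hp, by simpa using ho⟩, rfl⟩
  have m2 : ∀ q ∈ B, q.1 ∈ s := by
    intro q hq
    rw [hs, Finset.mem_union, Finset.mem_union]
    right; left
    rw [List.mem_toFinset, List.mem_map]
    exact ⟨q, hq, rfl⟩
  have m3 : ∀ β ∈ H, β ∈ s := by
    intro β hβ
    rw [hs, Finset.mem_union, Finset.mem_union]
    right; right
    rw [List.mem_toFinset]
    exact hβ
  have hs2 : ∀ α ∈ s, π / 2 < α ∧ α < π := by
    intro α hα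
    rw [hs, Finset.mem_union, Finset.mem_union] at hα
    rcases hα with hα | hα | hα
    · rw [List.mem_toFinset, List.mem_map] at hα
      obtain ⟨p, hp, rfl⟩ := hα
      exact H35.kil_max (hl p (List.mem_filter.mp hp).1)
    · rw [List.mem_toFinset, List.mem_map] at hα
      obtain ⟨q, hq, rfl⟩ := hα
      obtain ⟨h1, h2⟩ := okB q hq
      refine ⟨h2, ?_⟩
      rcases h1 with h1 | h1
      · exact h1.2.1
      · exact absurd h1.1 (by linarith)
    · rw [List.mem_toFinset] at hα
      exact okH α hα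
  have key := hlin s (fun α => wQ B H α - (l.map (wt α)).sum) ((l.map ct).sum - cQ B H) hs2 (by
    intro v
    have h1 := hEq v
    rw [H35.dB_sum, H35.om_sum s (fun α => KKf (π / α) (2 * v)) l m1, fB_sum, fH_sum,
      exp_sum s (fun α => KKf (π / α) (2 * v)) (fun q : ℝ × ℝ => q.1) 1 B m2,
      exp_sum s (fun α => KKf (π / α) (2 * v)) (fun β : ℝ => β) (1 / 2) H m3] at h1
    have h2 : ∑ α ∈ s, (wQ B H α - (l.map (wt α)).sum) * KKf (π / α) (2 * v) =
        (∑ α ∈ s, (B.map fun q => if q.1 = α then (1 : ℝ) else 0).sum * KKf (π / α) (2 * v)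
        + ∑ α ∈ s, (H.map fun β => if β = α then (1 / 2 : ℝ) else 0).sum * KKf (π / α) (2 * v))
        - ∑ α ∈ s, (l.map (wt α)).sum * KKf (π / α) (2 * v) := by
      rw [← Finset.sum_add_distrib, ← Finset.sum_sub_distrib]
      refine Finset.sum_congr rfl fun α _ => ?_
      unfold wQ
      ring
    show (l.map ct).sum - cQ B H +
      ∑ α ∈ s, (wQ B H α - (l.map (wt α)).sum) * KKf (π / α) (2 * v) = 0
    rw [h2]
    unfold cQ
    linarith)
  obtain ⟨k1, k2⟩ := key
  refine ⟨fun α => ?_, by linarith⟩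
  by_cases hα : α ∈ s
  · have h3 : wQ B H α - (l.map (wt α)).sum = 0 := k2 α hα
    linarith
  · have z1 : (l.map (wt α)).sum = 0 := H35.wt_zero l fun p hp ho he => hα (by
      rw [← he]; exact m1 p hp ho)
    have z2 : (B.map fun q => if q.1 = α then (1 : ℝ) else 0).sum = 0 :=
      exp_zero (fun q : ℝ × ℝ => q.1) 1 B fun q hq he => hα (by rw [← he]; exact m2 q hq)
    have z3 : (H.map fun β => if β = α then (1 / 2 : ℝ) else 0).sum = 0 :=
      exp_zero (fun β : ℝ => β) (1 / 2) H fun β hβ he => hα (by rw [← he]; exact m3 β hβ)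
    rw [z1]
    unfold wQ
    rw [z2, z3, add_zero]

end Pool.Agent.QUD.H39
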